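import Pool.Agent.W964.LieExp.Main

/-!
# Lie exponents of Lie groups approach two

The definitions are in `Pool.Agent.W964.LieExp.Defs` and `Pool.Agent.W964.LieExp.Heis`.

The Heisenberg group `H_n` of dimension `2 n + 1` is nilpotent, so the only Cartan subalgebra of its
Lie algebra is the whole Lie algebra and its rank is `2 n + 1`. Its three subgroups of all
`(a, 0, 0)`, of all `(0, b, 0)` and of all `(c, c, 0)`, of dimension `n` each, satisfy the triple
product property: if `(a, 0, 0) (0, b, 0) (c, c, 0) = 1` then `a = b = -c` and the last coordinate
of the product is `|c| ^ 2`. So the Lie exponent of `H_n` is at most `(2 n + 1) / n`.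
-/

set_option autoImplicit false

open Filter Topology
open Pool.Agent.W964.LieExp

namespace Pool.Agent.Results.MP_56bb89_lc.HeisenbergFamily

/-- **There is a family of Lie groups whose Lie exponent is two.** The Lie exponent of every real
Lie group (of finite positive dimension) is at least `2`, the Lie exponent of the Heisenberg group
of dimension `2 n + 1` is at most `2 + 1 / n`, so that the Lie exponents of the Heisenberg groups
tend to `2`, and the infimum of the Lie exponents of all Lie groups is `2`. -/
theorem result :
    (∀ A : RealLieGroup, 2 ≤ A.lieExponent) ∧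
    (∀ n : ℕ, 1 ≤ n → (Heis.lie n).lieExponent ≤ ((2 + 1 / (n : ℝ) : ℝ) : EReal)) ∧
    Tendsto (fun n : ℕ => (Heis.lie n).lieExponent) atTop (𝓝 2) ∧
    ⨅ A : RealLieGroup, A.lieExponent = 2 := by
  refine ⟨two_le_lieExponent, Heis.lieExponent_le, Heis.tendsto_lieExponent, le_antisymm ?_ ?_⟩
  · exact ge_of_tendsto Heis.tendsto_lieExponent (Eventually.of_forall fun n => iInf_le _ _)
  · exact le_iInf two_le_lieExponent

end Pool.Agent.Results.MP_56bb89_lc.HeisenbergFamily
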